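import Pool.Agent.H60.LQ.Cfg
import Pool.Agent.H12.KTH.Err

/-!
# LQ, row ALG2: algebra of `Ek`, `Esk`, `Eg`
-/

set_option autoImplicit false

namespace Pool.LQ

open Finset Real
open Pool.Agent.H49.Ent Pool.Agent.H32.Dense Pool.KTH

namespace Alg

lemma log_nn (J : ℕ) : 0 ≤ Real.log ((J : ℝ) + 2) := Real.log_nonneg (by
  have : (0 : ℝ) ≤ J := Nat.cast_nonneg J
  linarith)

/-- `log (J + 2) ≤ ε log M + C`. -/
lemma log_small {ε : ℝ} (hε : 0 < ε) : ∃ C : ℝ, 0 ≤ C ∧ ∀ J : ℕ,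
    Real.log ((J : ℝ) + 2) ≤ C + ε * lm J := by
  obtain ⟨J₀, _, h⟩ := er_small hε
  refine ⟨Real.log ((J₀ : ℝ) + 2), log_nn J₀, fun J => ?_⟩
  rcases le_total J₀ J with hJ | hJ
  · have h1 := h J hJ 0
    have h2 := log_le_er (J := J) (le_refl (0 : ℝ))
    have h3 := log_nn J₀
    linarith
  · have h1 : Real.log ((J : ℝ) + 2) ≤ Real.log ((J₀ : ℝ) + 2) := by
      apply Real.log_le_log
      · have : (0 : ℝ) ≤ J := Nat.cast_nonneg J
        linarith
      · have : (J : ℝ) ≤ J₀ := by exact_mod_cast hJ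
        linarith
    have h2 : 0 ≤ ε * lm J := mul_nonneg hε.le (lm_nonneg J)
    linarith

end Alg

open Alg in
theorem alg2 : ALG2Stmt := by
  intro d
  refine ⟨?_, ?_, ?_, ?_, ?_, ?_, ?_, ?_⟩
  · rintro k l f g ⟨C, hC, hf⟩ ⟨D, hD, hg⟩
    refine ⟨C + D, add_nonneg hC hD, fun J F L sb K G hF => ?_⟩
    have h1 := hf J F L sb K G hF
    have h2 := hg J F L sb K G hF
    have h3 : (k + l) * K + (C + D) * (G + 1 + Real.log (J + 2)) =
      (k * K + C * (G + 1 + Real.log (J + 2))) + (l * K + D * (G + 1 + Real.log (J + 2))) := by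
      ring
    rw [h3]
    exact add_le_add h1 h2
  · intro k l f g hf hg ε hε
    obtain ⟨C, hC, hf⟩ := hf (ε / 2) (half_pos hε)
    obtain ⟨D, hD, hg⟩ := hg (ε / 2) (half_pos hε)
    refine ⟨C + D, add_nonneg hC hD, fun J F L sb K G hF => ?_⟩
    have h1 := hf J F L sb K G hF
    have h2 := hg J F L sb K G hF
    have h3 : (k + l) * K + (C + D) * (G + 1) + ε * lm J =
      (k * K + C * (G + 1) + ε / 2 * lm J) + (l * K + D * (G + 1) + ε / 2 * lm J) := by
      ring
    rw [h3]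
    exact add_le_add h1 h2
  · rintro k f ⟨C, hC, hf⟩ ε hε
    have hC1 : 0 < C + 1 := by linarith
    obtain ⟨D, hD, hlog⟩ := log_small (ε := ε / (C + 1)) (div_pos hε hC1)
    refine ⟨C + C * D, add_nonneg hC (mul_nonneg hC hD), fun J F L sb K G hF => ?_⟩
    have h1 := hf J F L sb K G hF
    have hG := hF.G0
    have h2 : C * Real.log ((J : ℝ) + 2) ≤ C * (D + ε / (C + 1) * lm J) :=
      mul_le_mul_of_nonneg_left (hlog J) hC
    have h3 : C * (ε / (C + 1) * lm J) ≤ ε * lm J := by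
      have h4 : C * (ε / (C + 1)) ≤ ε := by
        rw [mul_div_assoc', div_le_iff₀ hC1]
        nlinarith
      calc C * (ε / (C + 1) * lm J) = C * (ε / (C + 1)) * lm J := by ring
        _ ≤ ε * lm J := mul_le_mul_of_nonneg_right h4 (lm_nonneg J)
    have h5 : 0 ≤ C * D * G := mul_nonneg (mul_nonneg hC hD) hG
    nlinarith
  · rintro f ⟨C, hC, hf⟩
    refine ⟨C, hC, fun J F L sb K G hF => ?_⟩
    have h1 := hf J F
    have h2 := hF.ge
    have h3 : C * (en F + 1 + Real.log (J + 2)) ≤ C * (G + 1 + Real.log (J + 2)) :=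
      mul_le_mul_of_nonneg_left (by linarith) hC
    have h4 : (0 : ℝ) * K = 0 := zero_mul K
    rw [h4, zero_add]
    exact h1.trans h3
  · rintro k c f hc ⟨C, hC, hf⟩
    refine ⟨c * C, mul_nonneg hc hC, fun J F L sb K G hF => ?_⟩
    have h1 := mul_le_mul_of_nonneg_left (hf J F L sb K G hF) hc
    have h2 : c * (k * K + C * (G + 1 + Real.log (J + 2))) =
      c * k * K + c * C * (G + 1 + Real.log (J + 2)) := by ring
    rw [← h2]
    exact h1
  · intro k c f hc hf ε hε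
    have hc1 : 0 < c + 1 := by linarith
    obtain ⟨C, hC, hf⟩ := hf (ε / (c + 1)) (div_pos hε hc1)
    refine ⟨c * C, mul_nonneg hc hC, fun J F L sb K G hF => ?_⟩
    have h1 := mul_le_mul_of_nonneg_left (hf J F L sb K G hF) hc
    have h2 : c * (k * K + C * (G + 1) + ε / (c + 1) * lm J) =
      c * k * K + c * C * (G + 1) + c * (ε / (c + 1)) * lm J := by ring
    have h4 : c * (ε / (c + 1)) ≤ ε := by
      rw [mul_div_assoc', div_le_iff₀ hc1]
      nlinarith
    have h5 := mul_le_mul_of_nonneg_right h4 (lm_nonneg J)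
    rw [h2] at h1
    exact h1.trans (add_le_add le_rfl h5)
  · rintro k l f g hkl ⟨C, hC, hf⟩ hfg
    refine ⟨C, hC, fun J F L sb K G hF => ?_⟩
    have h1 := hf J F L sb K G hF
    have h2 := mul_le_mul_of_nonneg_right hkl hF.K0
    exact ((hfg J F L sb).trans h1).trans (add_le_add h2 le_rfl)
  · intro k l f g hkl hf hfg ε hε
    obtain ⟨C, hC, hf⟩ := hf ε hε
    refine ⟨C, hC, fun J F L sb K G hF => ?_⟩
    have h1 := hf J F L sb K G hF
    have h2 := mul_le_mul_of_nonneg_right hkl hF.K0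
    exact ((hfg J F L sb).trans h1).trans (add_le_add (add_le_add h2 le_rfl) le_rfl)

end Pool.LQ
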